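import Mathlib

set_option autoImplicit false

namespace Pool.Agent.H.MP_9137bf_co

open Finset Real

theorem jensen {ι : Type} (s : Finset ι) (f W : ι → ℝ) (F : ℝ) (hf : ∀ i ∈ s, 0 < f i)
    (hW : ∀ i ∈ s, 0 < W i) (hF : ∑ i ∈ s, f i = F) (hF0 : 0 < F) :
    ∑ i ∈ s, f i * log (W i) + ∑ i ∈ s, f i * log (F / f i) ≤ F * log (∑ i ∈ s, W i) := by
  have hne : s.Nonempty := by
    by_contra h
    rw [not_nonempty_iff_eq_empty] at h
    simp [h] at hF
    linarith
  have hS : 0 < ∑ i ∈ s, W i := sum_pos hW hne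
  set S := ∑ i ∈ s, W i with hSdef
  have h1 : ∀ i ∈ s, f i * log (W i) + f i * log (F / f i)
      ≤ f i * log S + (W i * (F / S) - f i) := by
    intro i hi
    have a := hf i hi
    have b := hW i hi
    have c := log_le_sub_one_of_pos (show 0 < W i * (F / f i) / S by positivity)
    rw [log_div (by positivity) hS.ne', log_mul b.ne' (by positivity)] at c
    have d := mul_le_mul_of_nonneg_left c a.le
    have e : f i * (W i * (F / f i) / S - 1) = W i * (F / S) - f i := by field_simp
    linarith
  have h2 := sum_le_sum h1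
  rw [sum_add_distrib, sum_add_distrib, sum_sub_distrib, ← sum_mul, ← sum_mul, hF, ← hSdef] at h2
  have : S * (F / S) = F := by field_simp
  linarith

variable {V : Type} [Fintype V] [DecidableEq V] (G : SimpleGraph V) [DecidableRel G.Adj]

def W : ℕ → V → V → ℕ
  | 0, _, _ => 1
  | r + 1, u, v => ∑ w ∈ (G.neighborFinset v).erase u, W r v w

theorem W_pos (hd : ∀ v, 2 ≤ G.degree v) (r : ℕ) : ∀ u v, 0 < W G r u v := by
  induction r with
  | zero => intro u v; simp [W]
  | succ r ih =>
    intro u v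
    rw [W]
    refine sum_pos (fun w _ => ih v w) (card_pos.1 ?_)
    have := pred_card_le_card_erase (s := G.neighborFinset v) (a := u)
    have := hd v
    rw [SimpleGraph.card_neighborFinset_eq_degree] at *
    omega

theorem two_paths {g : ℕ} (hg : (g : ℕ∞) ≤ G.egirth) {a b : V} {p q : G.Walk a b} (hp : p.IsPath)
    (hq : q.IsPath) (h : p ≠ q) : g ≤ p.length + q.length := by
  obtain ⟨w, -, -, c, hc, hl⟩ := hp.exists_isCycle_length_le_add_of_ne hq h
  have := hg.trans (SimpleGraph.egirth_le_length hc)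
  have : g ≤ c.length := by exact_mod_cast this
  omega

theorem W_set {g : ℕ} (hg : (g : ℕ∞) ≤ G.egirth) (r : ℕ) (hr : 2 * r < g) :
    ∀ u v (h : G.Adj u v), ∃ T : Finset V, T.card = W G r u v ∧
      ∀ x ∈ T, ∃ q : G.Walk v x, q.length = r ∧ (SimpleGraph.Walk.cons h q).IsPath := by
  induction r with
  | zero =>
    intro u v h
    refine ⟨{v}, rfl, fun x hx => ?_⟩
    rw [mem_singleton.1 hx]
    exact ⟨.nil, rfl, by simp [h.ne]⟩
  | succ r ih =>
    intro u v h
    have ih' : ∀ w, ∃ T : Finset V, G.Adj v w → T.card = W G r v w ∧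
        ∀ (h' : G.Adj v w), ∀ x ∈ T, ∃ q : G.Walk w x, q.length = r ∧
          (SimpleGraph.Walk.cons h' q).IsPath := by
      intro w
      by_cases h' : G.Adj v w
      · obtain ⟨T, a, b⟩ := ih (by omega) v w h'
        exact ⟨T, fun _ => ⟨a, fun _ => b⟩⟩
      · exact ⟨∅, fun e => absurd e h'⟩
    choose T hT using ih'
    have hadj : ∀ w ∈ (G.neighborFinset v).erase u, G.Adj v w := fun w hw => by
      simpa using (mem_erase.1 hw).2
    refine ⟨((G.neighborFinset v).erase u).biUnion T, ?_, ?_⟩
    · rw [card_biUnion, W]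
      · exact sum_congr rfl fun w hw => (hT w (hadj w hw)).1
      · intro w hw w' hw' hne
        refine disjoint_left.2 fun x h1 h2 => ?_
        obtain ⟨q, q1, q2⟩ := (hT w (hadj w hw)).2 (hadj w hw) x h1
        obtain ⟨q', q1', q2'⟩ := (hT w' (hadj w' hw')).2 (hadj w' hw') x h2
        have := two_paths G hg q2 q2' (fun e => hne (by
          have := congrArg (fun p => p.getVert 1) e
          simpa using this))
        simp only [SimpleGraph.Walk.length_cons] at this
        omega
    · intro x hx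
      obtain ⟨w, hw, hx⟩ := mem_biUnion.1 hx
      obtain ⟨q, q1, q2⟩ := (hT w (hadj w hw)).2 (hadj w hw) x hx
      refine ⟨.cons (hadj w hw) q, by simp [q1], ?_⟩
      rw [SimpleGraph.Walk.cons_isPath_iff]
      refine ⟨q2, fun hu => ?_⟩
      have hu' : u ∈ q.support := by
        simpa [h.ne] using hu
      rw [SimpleGraph.Walk.cons_isPath_iff] at q2
      have p1 : (SimpleGraph.Walk.cons (hadj w hw) (q.takeUntil u hu')).IsPath := by
        rw [SimpleGraph.Walk.cons_isPath_iff]
        exact ⟨q2.1.takeUntil hu', fun e => q2.2 (q.support_takeUntil_subset_support hu' e)⟩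
      have p2 : (SimpleGraph.Walk.cons h.symm .nil).IsPath := by simp [h.ne']
      have := two_paths G hg p1 p2 (fun e => (mem_erase.1 hw).1 (by
        have := congrArg (fun p => p.getVert 1) e
        simpa using this))
      have := q.length_takeUntil_le_length hu'
      simp only [SimpleGraph.Walk.length_cons, SimpleGraph.Walk.length_nil] at *
      omega

theorem entropy (hd : ∀ v, 2 ≤ G.degree v) (F : V → V → ℝ) (f : V → V → V → ℝ)
    (hs : ∀ u v, F u v = F v u) (hF : ∀ u v, 0 < F u v) (hfs : ∀ u v w, f u v w = f w v u)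
    (hf : ∀ v, ∀ u ∈ G.neighborFinset v, ∀ w ∈ (G.neighborFinset v).erase u, 0 < f u v w)
    (hrow : ∀ v, ∀ u ∈ G.neighborFinset v, ∑ w ∈ (G.neighborFinset v).erase u, f u v w = F v u)
    (r : ℕ) :
    r * ∑ v, ∑ u ∈ G.neighborFinset v, ∑ w ∈ (G.neighborFinset v).erase u,
        f u v w * log (F v u / f u v w)
      ≤ ∑ v, ∑ u ∈ G.neighborFinset v, F v u * log (W G r u v) := by
  induction r with
  | zero => simp [W]
  | succ r ih =>
    have h1 : ∀ v, ∀ u ∈ G.neighborFinset v,
        ∑ w ∈ (G.neighborFinset v).erase u, f u v w * log (W G r v w)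
          + ∑ w ∈ (G.neighborFinset v).erase u, f u v w * log (F v u / f u v w)
        ≤ F v u * log (W G (r + 1) u v) := by
      intro v u hu
      rw [W]
      push_cast
      exact jensen _ _ _ _ (hf v u hu) (fun w _ => by exact_mod_cast W_pos G hd r v w)
        (hrow v u hu) (hF v u)
    have h2 := sum_le_sum fun v (_ : v ∈ univ) => sum_le_sum (h1 v)
    simp only [sum_add_distrib] at h2
    have h3 : ∀ v, ∑ u ∈ G.neighborFinset v, ∑ w ∈ (G.neighborFinset v).erase u,
        f u v w * log (W G r v w) = ∑ w ∈ G.neighborFinset v, F v w * log (W G r v w) := by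
      intro v
      rw [sum_comm' (t' := G.neighborFinset v) (s' := fun w => (G.neighborFinset v).erase w)
        (by intro x y; simp only [mem_erase]; tauto)]
      refine sum_congr rfl fun w hw => ?_
      rw [← sum_mul, ← hrow v w hw]
      simp only [hfs w v]
    have h4 : ∑ v, ∑ w ∈ G.neighborFinset v, F v w * log (W G r v w)
        = ∑ v, ∑ u ∈ G.neighborFinset v, F v u * log (W G r u v) := by
      rw [sum_comm' (t' := univ) (s' := fun w => G.neighborFinset w)
        (by intro x y; simp [G.adj_comm])]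
      simp only [hs]
    simp only [h3] at h2
    push_cast
    linarith

noncomputable def ent (x y z : ℝ) : ℝ :=
  ((x + y - z) / 2 * log (x / ((x + y - z) / 2)) + (x + z - y) / 2 * log (x / ((x + z - y) / 2)))
  + ((x + y - z) / 2 * log (y / ((x + y - z) / 2)) + (y + z - x) / 2 * log (y / ((y + z - x) / 2)))
  + ((x + z - y) / 2 * log (z / ((x + z - y) / 2)) + (y + z - x) / 2 * log (z / ((y + z - x) / 2)))

theorem ent_swap1 (x y z : ℝ) : ent x y z = ent y x z := by
  unfold ent
  rw [add_comm y x]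
  ring

theorem ent_swap2 (x y z : ℝ) : ent x y z = ent x z y := by
  unfold ent
  rw [add_comm z y]
  ring

theorem ent_same (x : ℝ) (hx : 0 < x) : ent x x x = 3 * x * log 2 := by
  unfold ent
  rw [show x / ((x + x - x) / 2) = 2 by field_simp; ring]
  ring

theorem rho_bounds {ρ : ℝ} (h : ρ ^ 3 - ρ - 2 = 0) : 1.5213 < ρ ∧ ρ < 1.5214 := by
  constructor
  · by_contra hc
    push Not at hc
    nlinarith [sq_nonneg (ρ + 0.76), mul_nonneg (sub_nonneg.2 hc) (sq_nonneg (ρ + 0.76))]
  · by_contra hc
    push Not at hc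
    nlinarith [sq_nonneg (ρ + 0.76), mul_nonneg (sub_nonneg.2 hc) (sq_nonneg (ρ + 0.76))]

theorem ent_facts {ρ : ℝ} (h : ρ ^ 3 - ρ - 2 = 0) : ∃ a ν : ℝ, 1 < a ∧ a < 2 ∧ log ρ ≤ ν ∧
    3 * a * log ρ + 2 * ν ≤ ent a a a ∧
    (2 * a + 1) * log ρ + 2 * ν ≤ ent a a 1 + (ν - log ρ) ∧
    (a + 2) * log ρ + 2 * ν ≤ ent a 1 1 + 2 * (ν - log ρ) ∧
    3 * log ρ + 2 * ν ≤ ent 1 1 1 + 3 * (ν - log ρ) := by
  obtain ⟨r1, r2⟩ := rho_bounds h
  have r0 : 0 < ρ := by linarith
  have l1 := log_two_gt_d9
  have l2 := log_two_lt_d9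
  have hl : log ρ ≤ 0.4197 := by
    rw [log_le_iff_le_exp r0]
    have := sum_le_exp_of_nonneg (show (0 : ℝ) ≤ 0.4197 by norm_num) 7
    norm_num [sum_range_succ, Nat.factorial] at this
    linarith
  have hl2 : 3 * log 2 ≤ 5 * log ρ := by
    have a : log ((2 : ℝ) ^ 3) ≤ log (ρ ^ 5) := by
      refine log_le_log (by norm_num) ?_
      have := pow_le_pow_left₀ (by norm_num) r1.le 5
      norm_num at this ⊢
      linarith
    rw [log_pow, log_pow] at a
    exact_mod_cast a
  have h3 : ρ ^ 3 = ρ + 2 := by linarith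
  obtain ⟨a, ha⟩ : ∃ a : ℝ, a = 4 / ρ ^ 3 := ⟨_, rfl⟩
  have a1 : 1.1359 < a := by
    rw [ha, h3, lt_div_iff₀ (by linarith)]; linarith
  have a2 : a < 1.136 := by
    rw [ha, h3, div_lt_iff₀ (by linarith)]; linarith
  have la : log a = 2 * log 2 - 3 * log ρ := by
    rw [ha, log_div (by norm_num) (by positivity), log_pow,
      show (4 : ℝ) = 2 ^ 2 by norm_num, log_pow]
    push_cast; ring
  have lb : log (2 - a) = log 2 - 2 * log ρ := by
    have : 2 - a = 2 / ρ ^ 2 := by
      rw [ha]; field_simp; linarith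
    rw [this, log_div (by norm_num) (by positivity), log_pow]
    push_cast; ring
  have lc : log (2 * a - 1) ≤ 0.245 := by
    rw [log_le_iff_le_exp (by linarith)]
    have := quadratic_le_exp_of_nonneg (show (0 : ℝ) ≤ 0.245 by norm_num)
    linarith
  refine ⟨a, 6 * log ρ - 3 * log 2, by linarith, by linarith, by linarith, ?_, ?_, ?_, ?_⟩
  · rw [ent_same a (by linarith)]
    nlinarith
  · have e : ent a a 1 = (2 * a - 1) * (log 2 + log a - log (2 * a - 1)) + (log 2 + log a)
        + log 2 := by
      unfold ent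
      rw [show a / ((a + a - 1) / 2) = 2 * a / (2 * a - 1) by
          rw [show a + a - 1 = 2 * a - 1 by ring]; field_simp,
        show a / ((a + 1 - a) / 2) = 2 * a by rw [show a + 1 - a = 1 by ring]; ring,
        show 1 / ((a + 1 - a) / 2) = 2 by rw [show a + 1 - a = 1 by ring]; ring,
        log_div (by linarith) (by linarith), log_mul (by norm_num) (by linarith)]
      ring
    rw [e, la]
    nlinarith
  · have e : ent a 1 1 = a * log 2 + a * (log 2 - log a) + (2 - a) * (log 2 - log (2 - a)) := by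
      unfold ent
      rw [show a / ((a + 1 - 1) / 2) = 2 by
          rw [show a + 1 - 1 = a by ring]; field_simp,
        show 1 / ((a + 1 - 1) / 2) = 2 / a by rw [show a + 1 - 1 = a by ring]; field_simp,
        show 1 / ((1 + 1 - a) / 2) = 2 / (2 - a) by rw [show 1 + 1 - a = 2 - a by ring]; field_simp,
        log_div (by norm_num) (by linarith), log_div (by norm_num) (by linarith)]
      ring
    rw [e, la, lb]
    linarith
  · rw [ent_same 1 (by norm_num)]
    linarith

end Pool.Agent.H.MP_9137bf_co
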