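import Mathlib
import Pool.Agent.H.MP_9137bf_co.A

set_option autoImplicit false

namespace Pool.Agent.H.MP_9137bf_co

open Finset Real

variable {V : Type} [Fintype V] [DecidableEq V] (G : SimpleGraph V) [DecidableRel G.Adj]

theorem main {ρ : ℝ} (h : ρ ^ 3 - ρ - 2 = 0) [Nonempty V]
    (hd : ∀ v, G.degree v = 2 ∨ G.degree v = 3)
    (hh : 2 * (univ.filter (fun v => G.degree v = 2)).card = Fintype.card V)
    {g : ℕ} (hg : (g : ℕ∞) ≤ G.egirth) (r : ℕ) (hr : 2 * r < g) :
    r * log ρ ≤ log (Fintype.card V) := by
  obtain ⟨a, ν, a1, a2, hν, e3, e2, e1, e0⟩ := ent_facts h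
  set l := log ρ with hl
  let F : V → V → ℝ := fun u v => if G.degree u = 3 ∧ G.degree v = 3 then a else 1
  let S : V → ℝ := fun v => ∑ t ∈ G.neighborFinset v, F v t
  let f : V → V → V → ℝ := fun u v w => F v u + F v w - S v / 2
  let J : V → ℝ := fun v => ∑ t ∈ G.neighborFinset v, if G.degree t = 2 then 1 else 0
  let E : V → ℝ := fun v => ∑ u ∈ G.neighborFinset v, ∑ w ∈ (G.neighborFinset v).erase u,
    f u v w * log (F v u / f u v w)
  have hF1 : ∀ u v, 1 ≤ F u v ∧ F u v ≤ a := fun u v => by
    simp only [F]; split_ifs <;> constructor <;> linarith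
  have hF0 : ∀ u v, 0 < F u v := fun u v => by linarith [(hF1 u v).1]
  have hd2 : ∀ v, 2 ≤ G.degree v := fun v => by rcases hd v with e | e <;> omega
  have loc : ∀ v, (∀ u ∈ G.neighborFinset v, ∀ w ∈ (G.neighborFinset v).erase u, 0 < f u v w) ∧
      (∀ u ∈ G.neighborFinset v, ∑ w ∈ (G.neighborFinset v).erase u, f u v w = F v u) ∧
      (if G.degree v = 2 then - (2 * l) else 2 * ν - J v * (ν - l)) ≤ E v - l * S v := by
    intro v
    rcases hd v with e | e
    · obtain ⟨p, q, hpq, hN⟩ := card_eq_two.1 ((G.card_neighborFinset_eq_degree v).trans e)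
      have hv : ∀ t, F v t = 1 := fun t => by simp [F, e]
      have hS : S v = 2 := by
        simp only [S, hv, sum_const, G.card_neighborFinset_eq_degree, e]; norm_num
      have hf : ∀ u w, f u v w = 1 := fun u w => by simp only [f, hv, hS]; norm_num
      refine ⟨fun u _ w _ => by rw [hf]; norm_num, fun u hu => ?_, ?_⟩
      · simp only [hf, hv, sum_const, card_erase_of_mem hu, G.card_neighborFinset_eq_degree, e]
        norm_num
      · simp only [E, hf, hv, hS, e, if_true]
        simp
        linarith
    · obtain ⟨p, q, s, h1, h2, h3, hN⟩ :=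
        card_eq_three.1 ((G.card_neighborFinset_eq_degree v).trans e)
      have ep : ({p, q, s} : Finset V).erase p = {q, s} := by
        ext x; simp only [mem_erase, mem_insert, mem_singleton]; grind
      have eq : ({p, q, s} : Finset V).erase q = {p, s} := by
        ext x; simp only [mem_erase, mem_insert, mem_singleton]; grind
      have es : ({p, q, s} : Finset V).erase s = {p, q} := by
        ext x; simp only [mem_erase, mem_insert, mem_singleton]; grind
      have s3 : ∀ φ : V → ℝ, ∑ t ∈ ({p, q, s} : Finset V), φ t = φ p + φ q + φ s := fun φ => by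
        rw [sum_insert (by simp [h1, h2]), sum_pair h3, add_assoc]
      have hS : S v = F v p + F v q + F v s := by simp only [S, hN, s3]
      have b1 := hF1 v p
      have b2 := hF1 v q
      have b3 := hF1 v s
      refine ⟨fun u hu w hw => ?_, fun u hu => ?_, ?_⟩
      · rw [hN] at hu hw
        simp only [mem_erase, mem_insert, mem_singleton] at hu hw
        simp only [f, hS]
        rcases hu with rfl | rfl | rfl <;> rcases hw with ⟨hw, rfl | rfl | rfl⟩ <;>
          first | exact absurd rfl hw | linarith
      · rw [hN] at hu ⊢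
        simp only [mem_insert, mem_singleton] at hu
        rcases hu with rfl | rfl | rfl
        · rw [ep, sum_pair h3]; simp only [f, hS]; ring
        · rw [eq, sum_pair h2]; simp only [f, hS]; ring
        · rw [es, sum_pair h1]; simp only [f, hS]; ring
      · have hE : E v = ent (F v p) (F v q) (F v s) := by
          simp only [E, hN, s3, ep, eq, es, sum_pair h1, sum_pair h2, sum_pair h3, f, hS, ent]
          ring_nf
        have hJ : J v = (if G.degree p = 2 then 1 else 0) + (if G.degree q = 2 then 1 else 0)
            + (if G.degree s = 2 then 1 else 0) := by simp only [J, hN, s3]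
        have k1 := ent_swap2 a a 1
        have k2 := ent_swap1 a 1 a
        have k3 := ent_swap1 a 1 1
        have k4 := ent_swap2 1 a 1
        rw [if_neg (by omega), hE, hS, hJ]
        rcases hd p with c1 | c1 <;> rcases hd q with c2 | c2 <;> rcases hd s with c3 | c3 <;>
          simp [F, e, c1, c2, c3] <;> linarith
  have hent := entropy G hd2 F f (fun u v => by simp only [F, and_comm]) hF0
    (fun u v w => by simp only [f]; ring) (fun v => (loc v).1) (fun v => (loc v).2.1) r
  have hup : ∑ v, ∑ u ∈ G.neighborFinset v, F v u * log (W G r u v)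
      ≤ (∑ v, S v) * log (Fintype.card V) := by
    rw [sum_mul]
    refine sum_le_sum fun v _ => ?_
    rw [sum_mul]
    refine sum_le_sum fun u hu => mul_le_mul_of_nonneg_left ?_ (hF0 v u).le
    obtain ⟨T, hT, -⟩ := W_set G hg r hr u v (by simpa [G.adj_comm] using hu)
    refine log_le_log (by exact_mod_cast W_pos G hd2 r u v) ?_
    rw [← hT]
    exact_mod_cast card_le_univ T
  have hZ : 0 < ∑ v, S v := sum_pos (fun v _ => sum_pos (fun u _ => hF0 v u)
    (card_pos.1 (by rw [G.card_neighborFinset_eq_degree]; linarith [hd2 v]))) univ_nonempty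
  have hglob : l * ∑ v, S v ≤ ∑ v, E v := by
    have g1 := sum_le_sum fun v (_ : v ∈ univ) => (loc v).2.2
    rw [sum_sub_distrib, ← mul_sum, sum_ite, sum_const, sum_sub_distrib, sum_const,
      ← sum_mul] at g1
    have g2 := card_filter_add_card_filter_not (s := (univ : Finset V)) (fun v => G.degree v = 2)
    rw [card_univ] at g2
    have g3 : (univ.filter (fun v => ¬ G.degree v = 2)).card
        = (univ.filter (fun v => G.degree v = 2)).card := by omega
    have g4 : ∑ v ∈ univ.filter (fun v => ¬ G.degree v = 2), J v ≤ ∑ v, J v :=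
      sum_le_sum_of_subset_of_nonneg (filter_subset _ _) fun v _ _ =>
        sum_nonneg fun t _ => by split_ifs <;> norm_num
    have g5 : ∑ v, J v = 2 * ((univ.filter (fun v => G.degree v = 2)).card : ℝ) := by
      simp only [J]
      rw [sum_comm' (t' := univ) (s' := fun w => G.neighborFinset w)
        (by intro x y; simp [G.adj_comm]), card_filter]
      push_cast
      rw [mul_sum]
      refine sum_congr rfl fun t _ => ?_
      rw [sum_const, G.card_neighborFinset_eq_degree]
      split_ifs with c <;> simp [c]
    rw [g3] at g1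
    simp only [nsmul_eq_mul] at g1
    have g6 := mul_le_mul_of_nonneg_right (g4.trans g5.le) (sub_nonneg.2 hν)
    linarith
  have hfin : (∑ v, S v) * (r * l) ≤ (∑ v, S v) * log (Fintype.card V) := by
    have := mul_le_mul_of_nonneg_left hglob (show (0 : ℝ) ≤ r by positivity)
    simp only [E] at this
    linarith
  exact le_of_mul_le_mul_left hfin hZ

end Pool.Agent.H.MP_9137bf_co
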